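import Pool.Agent.V11290.FD.Dil

/-!
# Joint correlations of the von Mangoldt and Liouville functions with one shift near `t α + s`

Let `μ` be ANY probability measure on `[-B, B]` whose Fourier transform decays like some power, with an arbitrarily
small exponent `σ > 0`. (Such measures live on many sets of Lebesgue measure zero and of arbitrarily small dimension,
for example on the sets of `τ`-well approximable numbers (Kaufman), on random Salem sets and on limit sets of convex cocompact
Fuchsian groups (Bourgain, Dyatlov).) For almost every `α` and all but finitely many `j` all the sums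
`∑ n ≤ N, θ n * (∏ i, Λ (a i * n + b i)) * λ (c n + h)` with an integer `h ≥ 0` at a distance of at most `log ^ A (t j)` from
`t j α + s j` are small, for all the data `(θ, a, b, c)` of a given set of at most `log ^ T (t j)` members.

Proof: the law of a random rounding of `t α` has a small characteristic function away from the integers (a Fourier
series with the coefficients `sinc²`), the theorem of the library W93.AU on random shifts with a small characteristic
function (starting files) is applied to it, and then the lemma of Borel and Cantelli.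
-/

set_option autoImplicit false

namespace Pool.Agent.Results.MP_e6fa8b_nt.FourierDecay

open MeasureTheory Finset

/-- The Liouville function, with complex values. -/
noncomputable def lam (n : ℕ) : ℂ := (-1) ^ ArithmeticFunction.cardFactors n

/-- Let `ν` be a probability measure on `[-B, B]` with `|ν^(ξ)| ≤ C |ξ| ^ (-σ)` for `|ξ| ≥ 1` and some `C` and `σ > 0`.
Let `t j ≥ 2` and `|s j| ≤ B t j` be real numbers, where `j` ranges over a set `J`, such that the sum of the
`1 / log ^ V (t j)` converges for some `V`. Let `r`, `T` and `E` be given. For every `j` and each of at most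
`log ^ T (t j)` indices `l` let `c j l ≥ 1`, let `a j l i * n + b j l i`, `i < r`, be arbitrary linear forms with
non-negative coefficients `≤ t j ^ E`, and let `θ j l : ℕ → ℂ` be an arbitrary function bounded by `1` (for example a product
`∏ k, λ (n + h' k)`). Then for `ν`-almost every `α`, for all `A` and `U` and for all but finitely many `j`, ALL the
integers `h ≥ 0` with `|h - (t j α + s j)| ≤ log ^ A (t j)` satisfy
`|∑ n ≤ N, θ j l n * (∏ i, Λ (a j l i * n + b j l i)) * λ (c j l * n + h)| ≤ t j / log ^ U (t j)`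
for all `l` and all `N ≤ B t j / c j l`. -/
theorem result (ν : Measure ℝ) [IsProbabilityMeasure ν] (B : ℝ) (hB : 0 < B) (hν : ∀ᵐ α ∂ν, |α| ≤ B)
    (C σ : ℝ) (hσ : 0 < σ) (hdec : ∀ ξ : ℝ, 1 ≤ |ξ| → ‖charFun ν ξ‖ ≤ C * |ξ| ^ (-σ))
    (J : Type) (t s : J → ℝ) (ht : ∀ j, 2 ≤ t j) (hs : ∀ j, |s j| ≤ B * t j)
    (hsum : ∃ V : ℕ, Summable fun j => 1 / Real.log (t j) ^ V)
    (r T E : ℕ) (L : J → ℕ) (hL : ∀ j, (L j : ℝ) ≤ Real.log (t j) ^ T) (c : (j : J) → Fin (L j) → ℕ)
    (hc : ∀ j l, 1 ≤ c j l) (a b : (j : J) → Fin (L j) → Fin r → ℕ)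
    (hab : ∀ j l i, (a j l i : ℝ) ≤ t j ^ E ∧ (b j l i : ℝ) ≤ t j ^ E)
    (θ : (j : J) → Fin (L j) → ℕ → ℂ) (hθ : ∀ j l n, ‖θ j l n‖ ≤ 1) :
    ∀ᵐ α ∂ν, ∀ A U : ℕ,
      {j | ¬ ∀ h : ℕ, |(h : ℝ) - (t j * α + s j)| ≤ Real.log (t j) ^ A → ∀ l, ∀ N : ℕ, (c j l * N : ℝ) ≤ B * t j →
        ‖∑ n ∈ Icc 1 N, θ j l n * (∏ i, (ArithmeticFunction.vonMangoldt (a j l i * n + b j l i) : ℂ)) *
          lam (c j l * n + h)‖ ≤ t j / Real.log (t j) ^ U}.Finite := by
  obtain ⟨V, hV⟩ := hsum
  obtain ⟨t₁, ht₁⟩ : ∃ t₁ : ℝ, t₁ = max (Real.exp ((E : ℝ) + 3)) (B + 1) := ⟨_, rfl⟩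
  have h := Pool.Agent.V11290.FD.dil_ae Pool.Agent.H373R2.T7.liR Pool.Agent.W93.LM.nice_liR B C σ hB hσ ν hdec hν t s ht V hV hs
    (T + 2 * r) L t₁ (fun j hj => (hL j).trans (pow_le_pow_right₀ (by
      rw [Real.le_log_iff_exp_le (by linarith [ht j])]
      refine le_trans ?_ hj
      rw [ht₁]
      refine le_trans ?_ (le_max_left _ _)
      exact Real.exp_le_exp.2 (by have : (0 : ℝ) ≤ E := Nat.cast_nonneg E; linarith)) (by omega))) c hc
    (fun j l n => θ j l n * ∏ i, (ArithmeticFunction.vonMangoldt (a j l i * n + b j l i) : ℂ)) (by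
    intro j hj l n hn1 hn2
    have ht2 := ht j
    have htB : B + 1 ≤ t j := by
      refine le_trans ?_ hj
      rw [ht₁]
      exact le_max_right _ _
    have hlogE : (E : ℝ) + 3 ≤ Real.log (t j) := by
      rw [Real.le_log_iff_exp_le (by linarith)]
      refine le_trans ?_ hj
      rw [ht₁]
      exact le_max_left _ _
    have hE0 : (0 : ℝ) ≤ E := Nat.cast_nonneg E
    have hlog1 : 1 ≤ Real.log (t j) := by linarith
    have hnB : (n : ℝ) ≤ B * t j := by
      refine le_trans ?_ hn2
      have : (1 : ℝ) ≤ c j l := by exact_mod_cast hc j l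
      have hn0 : (0 : ℝ) ≤ n := Nat.cast_nonneg n
      nlinarith
    have hΛ : ∀ i, |ArithmeticFunction.vonMangoldt (a j l i * n + b j l i)| ≤ Real.log (t j) ^ 2 := by
      intro i
      rw [abs_of_nonneg ArithmeticFunction.vonMangoldt_nonneg]
      refine ArithmeticFunction.vonMangoldt_le_log.trans ?_
      rcases Nat.eq_zero_or_pos (a j l i * n + b j l i) with h0 | h0
      · rw [h0]
        simp only [Nat.cast_zero, Real.log_zero]
        positivity
      · have e1 : ((a j l i * n + b j l i : ℕ) : ℝ) ≤ t j ^ (E + 3) := by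
          push_cast
          have e2 : (1 : ℝ) ≤ t j ^ E := one_le_pow₀ (by linarith)
          have e3 : (a j l i : ℝ) * n ≤ t j ^ E * (B * t j) := mul_le_mul (hab j l i).1 hnB (Nat.cast_nonneg n) (by positivity)
          have e4 : t j ^ E * (B * t j) + t j ^ E ≤ t j ^ E * (t j * t j) := by
            have : B * t j + 1 ≤ t j * t j := by nlinarith
            nlinarith
          have e5 : t j ^ E * (t j * t j) ≤ t j ^ (E + 3) := by
            have : t j ^ (E + 3) = t j ^ E * (t j * t j) * t j := by ring
            rw [this]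
            exact le_mul_of_one_le_right (by positivity) (by linarith)
          linarith [(hab j l i).2]
        have e2 : Real.log ((a j l i * n + b j l i : ℕ) : ℝ) ≤ Real.log (t j ^ (E + 3)) :=
          Real.log_le_log (by exact_mod_cast h0) e1
        refine e2.trans ?_
        rw [Real.log_pow]
        push_cast
        nlinarith
    rw [norm_mul, norm_prod]
    have e1 : ∏ i, ‖(ArithmeticFunction.vonMangoldt (a j l i * n + b j l i) : ℂ)‖ ≤ ∏ _i : Fin r, Real.log (t j) ^ 2 := by
      apply prod_le_prod (fun _ _ => norm_nonneg _)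
      intro i _
      rw [Complex.norm_real, Real.norm_eq_abs]
      exact hΛ i
    rw [prod_const, card_univ, Fintype.card_fin, ← pow_mul] at e1
    calc _ ≤ 1 * Real.log (t j) ^ (2 * r) := mul_le_mul (hθ j l n) e1 (prod_nonneg fun _ _ => norm_nonneg _) zero_le_one
      _ = Real.log (t j) ^ (2 * r) := one_mul _
      _ ≤ _ := pow_le_pow_right₀ hlog1 (by omega))
  filter_upwards [h] with α hα A U
  refine (hα A U).subset ?_
  intro j hj hall
  apply hj
  intro m hm l N hN
  have h1 := hall (m : ℤ) (by exact_mod_cast hm) l N hN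
  refine le_trans (le_of_eq ?_) h1
  congr 1
  apply sum_congr rfl
  intro n hn
  congr 1
  rw [mem_Icc] at hn
  have h4 : 0 < c j l * n := Nat.mul_pos (hc j l) (by omega)
  have h5 : ((c j l : ℤ) * n + (m : ℤ)) = ((c j l * n + m : ℕ) : ℤ) := by push_cast; ring
  unfold Pool.Agent.H373R2.T7.exI
  rw [h5, if_pos (by exact_mod_cast (by omega : 1 ≤ c j l * n + m)), Int.toNat_natCast]
  rfl

end Pool.Agent.Results.MP_e6fa8b_nt.FourierDecay
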