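import Pool.Agent.V11251.DS.Weights

/-!
# Joint correlations of the von Mangoldt and Liouville functions with one palindromic shift

The analytic input (exponential sum bounds for the Liouville function, the law of the palindromes) is in the starting
files `Pool.Agent.H807R2.Dav`, `Pool.Agent.H373R2.T7`, `Pool.Agent.W93.AU`, `Pool.Agent.TH872`.
-/

set_option autoImplicit false

namespace Pool.Agent.Results.MP_e6fa8b_nt.PalindromicShifts

open Finset

/-- The Liouville function on the integers, `0` at the integers `m ≤ 0`, with complex values. -/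
noncomputable def lam (m : ℤ) : ℂ := if 1 ≤ m then (-1) ^ ArithmeticFunction.cardFactors m.toNat else 0

/-- `v` is a palindrome with exactly `k` digits in base `b`: the digit number `j` (which is
`v / b ^ j % b`) is equal to the digit number `k - 1 - j`, for all `j < k`. -/
def IsPalindrome (b k v : ℕ) : Prop :=
  b ^ (k - 1) ≤ v ∧ v < b ^ k ∧ ∀ j < k, v / b ^ j % b = v / b ^ (k - 1 - j) % b

open Classical in
/-- The number of the palindromes with `k` digits in base `b` which have the property `E`. -/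
noncomputable def num (b k : ℕ) (E : ℕ → Prop) : ℕ :=
  ((range (b ^ k)).filter (fun v => IsPalindrome b k v ∧ E v)).card

/-- Let the number `r` of factors `Λ`, the base `b ≥ 2`, an integer `κ ≠ 0` and `B`, `T`, `U` be fixed. Let `k` be
large and let `c` be an integer with `|c| ≤ B b ^ k`. For each of at most `k ^ T` indices `l` let `α l ≥ 1`, let
`a l i n + h l i` for `i < r` be arbitrary linear forms with non-negative coefficients `≤ b ^ (k B)`, and let
`θ l : ℕ → ℂ` be an arbitrary function bounded by `1` (for example a product `∏ j, λ (n + h' j)`). Then all the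
palindromes `v` with `k` digits in base `b`, with the exception of a proportion of at most `1 / k ^ U` of them, have the
following property: the shift `h = c + κ v` satisfies
`|∑ n ≤ x, θ l n * (∏ i, Λ (a l i * n + h l i)) * λ (α l * n + h)| ≤ b ^ k / k ^ U`
for all `l` and all `x ≤ B b ^ k / α l`. -/
theorem result (r b : ℕ) (hb : 2 ≤ b) (κ : ℤ) (hκ : κ ≠ 0) (B T U : ℕ) :
    ∃ k₀ : ℕ, ∀ k, k₀ ≤ k → ∀ c : ℤ, |c| ≤ B * b ^ k →
      ∀ L : ℕ, (L : ℝ) ≤ (k : ℝ) ^ T → ∀ (α : Fin L → ℕ) (a h : Fin L → Fin r → ℕ) (θ : Fin L → ℕ → ℂ),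
        (∀ l, 1 ≤ α l) → (∀ l i, a l i ≤ b ^ (k * B) ∧ h l i ≤ b ^ (k * B)) → (∀ l n, ‖θ l n‖ ≤ 1) →
        (num b k (fun v => ¬ ∀ l, ∀ x : ℕ, α l * x ≤ B * b ^ k →
          ‖∑ n ∈ Icc 1 x, θ l n * (∏ i, (ArithmeticFunction.vonMangoldt (a l i * n + h l i) : ℂ)) *
            lam (α l * n + (c + κ * v))‖ ≤ (b : ℝ) ^ k / (k : ℝ) ^ U) : ℝ) ≤ num b k (fun _ => True) / (k : ℝ) ^ U := by
  obtain ⟨k1, h1⟩ := Pool.Agent.TH872.Tr.transfer b B U hb κ _
    (Pool.Agent.V11251.DS.pal_corr b B (T + 2 * r) U hb Pool.Agent.H373R2.T7.liR Pool.Agent.W93.LM.nice_liR κ hκ)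
    1 one_pos
  obtain ⟨k2, h2⟩ := Pool.Agent.V11251.DS.k_log b B
  refine ⟨k1 + k2 + B + 1, fun k hk c hc L hL α a h θ hα hah hθ => ?_⟩
  have hk1 : (1 : ℝ) ≤ k := by exact_mod_cast (by omega : 1 ≤ k)
  refine (h1 k (by omega) c (by exact_mod_cast hc) (fun s => ¬ ∀ l, ∀ x : ℕ, α l * x ≤ B * b ^ k →
          ‖∑ n ∈ Icc 1 x, θ l n * (∏ i, (ArithmeticFunction.vonMangoldt (a l i * n + h l i) : ℂ)) *
            lam (α l * n + s)‖ ≤ (b : ℝ) ^ k / (k : ℝ) ^ U) ?_).2
  refine ⟨L, Pool.Agent.V11251.DS.wt α a h θ, hL.trans (pow_le_pow_right₀ hk1 (by omega)),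
    (fun l hl m _ hm2 => Pool.Agent.V11251.DS.wt_le b B k hb (h2 k (by omega)) (by omega) T L r α a h θ hah hθ l hl m hm2),
    fun s hs => ?_⟩
  push Not at hs
  obtain ⟨l, x, hx, h3⟩ := hs
  refine ⟨l, l.2, α l * x, hx, ?_⟩
  rw [← Pool.Agent.V11251.DS.wt_sum α hα a h θ _ l x]
  rw [Nat.cast_pow]
  refine lt_of_lt_of_eq h3 ?_
  congr 1

end Pool.Agent.Results.MP_e6fa8b_nt.PalindromicShifts
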