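import Pool.Agent.V11251.DS.Pat

/-!
# Sign patterns of the Liouville function at several shifts with rearranged digits on arbitrary sets, for example on prime constellations

The analytic input (exponential sum bounds for the Liouville function, the laws of the random integers) is in the
starting files `Pool.Agent.H807R2.Dav`, `Pool.Agent.H373R2.T7`, `Pool.Agent.W93.AU`, `Pool.Agent.TH872`; new is the passage
to the patterns of several values on arbitrary sets (`Pool.Agent.V11251.DS.Pat`).
-/

set_option autoImplicit false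

namespace Pool.Agent.Results.MP_e6fa8b_nt.RearrangedPatterns

open Finset

/-- `d` is a word of `k` digits in base `b`, in which no digit stands at more than `(1 - η) k` places. -/
def Mixed (b k : ℕ) (η : ℝ) (d : Fin k → ℕ) : Prop :=
  (∀ i, d i < b) ∧ ∀ a, ((univ.filter fun i => d i = a).card : ℝ) ≤ (1 - η) * k

/-- The integer whose `k` digits in base `b` are the digits `d` rearranged by the permutation `σ`: the digit number `j`
(the coefficient of `b ^ j`) is `d (σ j)`. -/
def rearranged (b : ℕ) {k : ℕ} (d : Fin k → ℕ) (σ : Equiv.Perm (Fin k)) : ℕ := ∑ j : Fin k, d (σ j) * b ^ (j : ℕ)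

/-- The Liouville function `λ(m) = (-1) ^ Ω(m)`. -/
noncomputable def lam (m : ℕ) : ℤ := (-1) ^ ArithmeticFunction.cardFactors m

/-- The sign of a truth value: `1` for `true`, `-1` for `false`. -/
def sign (e : Bool) : ℤ := if e then 1 else -1

open Classical in
/-- The positive integers `n ≤ X` which belong to the set `A`. -/
noncomputable def upTo (A : Set ℕ) (X : ℕ) : Finset ℕ := (Icc 1 X).filter (fun n => n ∈ A)

/-- The positive integers `n ≤ X` in the set `A` for which `λ(a i * n + h i)` has the sign `e i`, for all `i`. -/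
noncomputable def pattern {s : ℕ} (a h : Fin s → ℕ) (A : Set ℕ) (e : Fin s → Bool) (X : ℕ) : Finset ℕ :=
  (upTo A X).filter (fun n => ∀ i, lam (a i * n + h i) = sign (e i))

/-- On each of the first `L` of the sets `A 0, A 1, ...`, and for all `X ≤ N`, every one of the `2 ^ s` patterns of signs of
`(λ(a 1 * n + h 1), ..., λ(a s * n + h s))` has the frequency `1 / 2 ^ s`, up to an error of at most `N / log ^ U N`. -/
def Good {s : ℕ} (U L N : ℕ) (a : Fin s → ℕ) (A : ℕ → Set ℕ) (h : Fin s → ℕ) : Prop :=
  ∀ l < L, ∀ e : Fin s → Bool, ∀ X ≤ N,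
    |((pattern a h (A l) e X).card : ℝ) - (upTo (A l) X).card / 2 ^ s| ≤ N / Real.log N ^ U

lemma lam_iff (m : ℕ) (e : Bool) : lam m = sign e ↔ (Even (ArithmeticFunction.cardFactors m) ↔ e = true) := by
  unfold lam sign
  rcases Nat.even_or_odd (ArithmeticFunction.cardFactors m) with h | h
  · rw [h.neg_one_pow]
    cases e <;> simp [h]
  · rw [h.neg_one_pow]
    have h2 := Nat.not_even_iff_odd.2 h
    cases e <;> simp [h2]

open Classical in
/-- Let `s`, bases `b i ≥ 2`, `η > 0`, coefficients `a i ≥ 1` and `κ i ≥ 1` (`i < s`), `B`, `T` and `U` be fixed, let `N` be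
large, let `k i` be lengths with `N / B ≤ b i ^ k i ≤ B N`, let `0 ≤ c i ≤ B N`, let `d i` be ANY word of `k i` digits in
base `b i` in which no digit stands at more than `(1 - η) k i` places, and let `A 0, ..., A (L - 1)`, `L ≤ log ^ T N`, be
ARBITRARY sets of positive integers (for example the sets of the `n` for which the numbers `n + h`, `h ∈ H l`, are all
primes, for given sets `H l`). Rearrange the digits of each `d i` by a permutation `σ i`, let `v i` be the integer with the
rearranged digits, and put `h i = c i + κ i v i`. Then all the vectors `(σ 1, ..., σ s)` of permutations, with the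
exception of a proportion of at most `1 / log ^ U N` of them, have the following property, for all the sets `A l`, all the
`2 ^ s` patterns `e` of signs and all `X ≤ N`: the number of the `n ≤ X` in `A l` with `λ(a i n + h i) = e i` for all `i < s`
is `2 ^ (-s)` times the number of the `n ≤ X` in `A l`, up to an error of at most `N / log ^ U N`. -/
theorem result (s : ℕ) (b : Fin s → ℕ) (hb : ∀ i, 2 ≤ b i) (η : ℝ) (hη : 0 < η) (a κ : Fin s → ℕ) (ha : ∀ i, 1 ≤ a i)
    (hκ : ∀ i, 1 ≤ κ i) (B T U : ℕ) :
    ∃ N₀ : ℕ, ∀ N, N₀ ≤ N → ∀ k : Fin s → ℕ, (∀ i, N ≤ B * b i ^ k i ∧ b i ^ k i ≤ B * N) →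
      ∀ d : ∀ i, Fin (k i) → ℕ, (∀ i, Mixed (b i) (k i) η (d i)) →
      ∀ c : Fin s → ℕ, (∀ i, c i ≤ B * N) → ∀ L : ℕ, (L : ℝ) ≤ Real.log N ^ T → ∀ A : ℕ → Set ℕ,
      ((univ.filter fun σ : ∀ i, Equiv.Perm (Fin (k i)) =>
        ¬ Good U L N a A (fun i => c i + κ i * rearranged (b i) (d i) (σ i))).card : ℝ) ≤
      ((∏ i, (k i).factorial : ℕ) : ℝ) / Real.log N ^ U := by
  obtain ⟨N₀, h⟩ := Pool.Agent.V11251.DS.pat_perm s b hb η hη a κ ha hκ B T U
  refine ⟨N₀, fun N hN k hk d hd c hc L hL A => ?_⟩
  rw [Nat.cast_prod]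
  exact h N hN k (fun i => ⟨(hk i).2, (hk i).1⟩) d (fun i => ⟨(hd i).1, (hd i).2⟩) c hc L hL A (fun h => Good U L N a A h)
    (fun h hh => by
      intro l hl e X hX
      have h2 := hh l hl e X hX
      rw [Pool.Agent.V11251.DS.pat_bridge (A l) a h e X (pattern a h (A l) e X) (upTo (A l) X) (fun n => by
        unfold pattern upTo
        rw [mem_filter, mem_filter, and_assoc]
        apply and_congr Iff.rfl
        apply and_congr Iff.rfl
        apply forall_congr'
        intro i
        exact lam_iff _ _) (fun n => by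
        unfold upTo
        rw [mem_filter])] at h2
      exact h2)

end Pool.Agent.Results.MP_e6fa8b_nt.RearrangedPatterns
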