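import Pool.Agent.V11251.DS.Weights

/-!
# Joint correlations of the von Mangoldt and Liouville functions with one shift with rearranged digits

The analytic input (exponential sum bounds for the Liouville function, the digit rearrangement law) is in the starting
files `Pool.Agent.H807R2.Dav`, `Pool.Agent.H373R2.T7`, `Pool.Agent.W93.AU`, `Pool.Agent.TH872`.
-/

set_option autoImplicit false

namespace Pool.Agent.Results.MP_e6fa8b_nt.RearrangedShifts

open Finset

/-- The Liouville function on the integers, `0` at the integers `m ≤ 0`, with complex values. -/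
noncomputable def lam (m : ℤ) : ℂ := if 1 ≤ m then (-1) ^ ArithmeticFunction.cardFactors m.toNat else 0

/-- `d` is a word of `k` digits in base `b`, in which no digit stands at more than `(1 - η) k` places. -/
def Mixed (b k : ℕ) (η : ℝ) (d : Fin k → ℕ) : Prop :=
  (∀ i, d i < b) ∧ ∀ a, ((univ.filter fun i => d i = a).card : ℝ) ≤ (1 - η) * k

/-- The integer whose `k` digits in base `b` are the digits `d` rearranged by the permutation `σ`: the digit number `i`
(the coefficient of `b ^ i`) is `d (σ i)`. -/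
def rearranged (b : ℕ) {k : ℕ} (d : Fin k → ℕ) (σ : Equiv.Perm (Fin k)) : ℕ := ∑ i : Fin k, d (σ i) * b ^ (i : ℕ)

open Classical in
/-- Let the number `r` of factors `Λ`, the base `b ≥ 2`, `η > 0`, an integer `κ ≠ 0` and `B`, `T`, `U` be fixed. Let `k`
be large and let `d` be any `k` digits in base `b`, none of which stands at more than `(1 - η) k` places. Let `c` be an
integer with `|c| ≤ B b ^ k`. For each of at most `k ^ T` indices `l` let `α l ≥ 1`, let `a l i n + h l i` for `i < r`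
be arbitrary linear forms with non-negative coefficients `≤ b ^ (k B)`, and let `θ l : ℕ → ℂ` be an arbitrary function
bounded by `1` (for example a product `∏ j, λ (n + h' j)`). Then all but at most `k ! / k ^ U` of the `k !` permutations
`σ` of the places have the following property: the shift `h = c + κ v`, where `v` is the integer with the rearranged
digits, satisfies
`|∑ n ≤ x, θ l n * (∏ i, Λ (a l i * n + h l i)) * λ (α l * n + h)| ≤ b ^ k / k ^ U`
for all `l` and all `x ≤ B b ^ k / α l`. -/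
theorem result (r b : ℕ) (hb : 2 ≤ b) (η : ℝ) (hη : 0 < η) (κ : ℤ) (hκ : κ ≠ 0) (B T U : ℕ) :
    ∃ k₀ : ℕ, ∀ k, k₀ ≤ k → ∀ d : Fin k → ℕ, Mixed b k η d → ∀ c : ℤ, |c| ≤ B * b ^ k →
      ∀ L : ℕ, (L : ℝ) ≤ (k : ℝ) ^ T → ∀ (α : Fin L → ℕ) (a h : Fin L → Fin r → ℕ) (θ : Fin L → ℕ → ℂ),
        (∀ l, 1 ≤ α l) → (∀ l i, a l i ≤ b ^ (k * B) ∧ h l i ≤ b ^ (k * B)) → (∀ l n, ‖θ l n‖ ≤ 1) →
        ((univ.filter fun σ : Equiv.Perm (Fin k) => ¬ ∀ l, ∀ x : ℕ, α l * x ≤ B * b ^ k →
          ‖∑ n ∈ Icc 1 x, θ l n * (∏ i, (ArithmeticFunction.vonMangoldt (a l i * n + h l i) : ℂ)) *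
            lam (α l * n + (c + κ * rearranged b d σ))‖ ≤ (b : ℝ) ^ k / (k : ℝ) ^ U).card : ℝ) ≤
          k.factorial / (k : ℝ) ^ U := by
  obtain ⟨k1, h1⟩ := Pool.Agent.V11251.DS.an_corr b B (T + 2 * r) U hb Pool.Agent.H373R2.T7.liR
    Pool.Agent.W93.LM.nice_liR κ hκ η hη
  obtain ⟨k2, h2⟩ := Pool.Agent.V11251.DS.k_log b B
  refine ⟨k1 + k2 + B + 1, fun k hk d hd c hc L hL α a h θ hα hah hθ => ?_⟩
  have hk1 : (1 : ℝ) ≤ k := by exact_mod_cast (by omega : 1 ≤ k)
  refine h1 k (by omega) d ⟨hd.1, hd.2⟩ c (by exact_mod_cast hc) L (hL.trans (pow_le_pow_right₀ hk1 (by omega)))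
    (Pool.Agent.V11251.DS.wt α a h θ)
    (fun l hl m _ hm2 => Pool.Agent.V11251.DS.wt_le b B k hb (h2 k (by omega)) (by omega) T L r α a h θ hah hθ l hl m hm2)
    _ (fun σ hσ => ?_)
  push Not at hσ
  obtain ⟨l, x, hx, h3⟩ := hσ
  refine ⟨l, l.2, α l * x, hx, ?_⟩
  rw [← Pool.Agent.V11251.DS.wt_sum α hα a h θ _ l x]
  rw [Nat.cast_pow]
  refine lt_of_lt_of_eq h3 ?_
  congr 1

end Pool.Agent.Results.MP_e6fa8b_nt.RearrangedShifts
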